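import Pool.Agent.H74.G.R_pool_sql_team_seeded_c8625f6e.K4H47.RH.Dm

/-!
# Small fields which are constant near a given point, and the derivative of their pushes
-/

set_option autoImplicit false
set_option linter.unusedSectionVars false

open scoped Manifold ContDiff Topology
open Filter Set Metric

universe u

namespace Pool.Agent.K4H47.IR

open Pool.Agent.H718R2.G Pool.Agent.W564.SC Pool.Agent.K4H47.RH

/-- the model bump -/
noncomputable def bmp (n : ℕ) (y : V n) : ℝ :=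
  (⟨1 / 8, 1 / 4, by norm_num, by norm_num⟩ : ContDiffBump (0 : V n)) y

theorem bmp_smooth (n : ℕ) : ContDiff ℝ ∞ (bmp n) := ContDiffBump.contDiff _

theorem bmp_near {n : ℕ} {y : V n} (hy : ‖y‖ ≤ 1 / 8) : bmp n y = 1 := by
  unfold bmp
  rw [ContDiffBump.one_of_mem_closedBall]
  rw [mem_closedBall, dist_zero_right]
  exact hy

theorem bmp_far {n : ℕ} {y : V n} (hy : 1 / 4 ≤ ‖y‖) : bmp n y = 0 := by
  unfold bmp
  rw [ContDiffBump.zero_of_le_dist]
  rw [dist_zero_right]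
  exact hy

theorem bmp_bound (n k : ℕ) : ∃ C : ℝ, 0 < C ∧ ∀ j ≤ k, ∀ y, ‖iteratedFDeriv ℝ j (bmp n) y‖ ≤ C := by
  have hbd : ∀ j : ℕ, ∃ C : ℝ, ∀ x : V n, ‖iteratedFDeriv ℝ j (bmp n) x‖ ≤ C := by
    intro j
    have hc : Continuous (iteratedFDeriv ℝ j (bmp n)) :=
      (bmp_smooth n).continuous_iteratedFDeriv (by exact_mod_cast le_top)
    have hs : HasCompactSupport (bmp n) := by
      refine HasCompactSupport.intro (isCompact_closedBall (0 : V n) (1 / 4)) fun x hx => ?_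
      apply bmp_far
      rw [mem_closedBall, dist_zero_right, not_le] at hx
      exact hx.le
    exact hc.bounded_above_of_compact_support (hs.iteratedFDeriv j)
  choose C hC using hbd
  have hC0 : ∀ j, 0 ≤ C j := fun j => (norm_nonneg _).trans (hC j 0)
  refine ⟨1 + ∑ j ∈ Finset.range (k + 1), C j, ?_, fun j hj y => ?_⟩
  · have := Finset.sum_nonneg (fun j (_ : j ∈ Finset.range (k + 1)) => hC0 j)
    linarith
  · have := Finset.single_le_sum (fun i (_ : i ∈ Finset.range (k + 1)) => hC0 i)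
      (Finset.mem_range.2 (Nat.lt_succ_of_le hj))
    linarith [hC j y]

/-- A small field which is equal to `w` near `v` and vanishes away from `v`. -/
theorem cfield (n k : ℕ) : ∃ C : ℝ, 0 < C ∧ ∀ (v w : V n) (r ε : ℝ), 0 ≤ ε → 0 < r → r ≤ 1 →
    ‖v‖ ≤ 1 / 4 → ‖w‖ ≤ ε * r ^ k →
    ∃ u : V n → V n, Small n k (C * ε) u ∧ (∀ x, ‖x - v‖ ≤ r / 8 → u x = w) ∧
      ∀ x, r / 4 ≤ ‖x - v‖ → u x = 0 := by
  obtain ⟨C, hC0, hC⟩ := bmp_bound n k
  refine ⟨C, hC0, fun v w r ε hε hr hr1 hv hw => ?_⟩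
  set M : V n →L[ℝ] V n := r⁻¹ • ContinuousLinearMap.id ℝ (V n) with hM
  set L : ℝ →L[ℝ] V n := (ContinuousLinearMap.id ℝ ℝ).smulRight w with hL
  have hMx : ∀ x, M x = r⁻¹ • x := fun x => by simp [hM]
  have hLx : ∀ c, L c = c • w := fun c => by simp [hL]
  have hnx : ∀ x : V n, ‖r⁻¹ • x‖ = ‖x‖ / r := fun x => by
    rw [norm_smul, Real.norm_of_nonneg (inv_nonneg.2 hr.le), div_eq_inv_mul]
  have hnM : ‖M‖ ≤ r⁻¹ := by
    refine ContinuousLinearMap.opNorm_le_bound _ (inv_nonneg.2 hr.le) (fun x => ?_)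
    rw [hMx, norm_smul, Real.norm_of_nonneg (inv_nonneg.2 hr.le)]
  have hnL : ‖L‖ ≤ ‖w‖ := by
    refine ContinuousLinearMap.opNorm_le_bound _ (norm_nonneg _) (fun c => ?_)
    rw [hLx, norm_smul, mul_comm]
  have hfar : ∀ x, r / 4 ≤ ‖x - v‖ → (L ∘ (bmp n ∘ M)) (x - v) = 0 := by
    intro x hx
    have h1 : bmp n (r⁻¹ • (x - v)) = 0 := by
      apply bmp_far
      rw [hnx, le_div_iff₀ hr]
      linarith
    simp only [Function.comp_apply, hMx, h1, hLx, zero_smul]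
  refine ⟨fun x => (L ∘ (bmp n ∘ M)) (x - v), ⟨?_, ?_, ?_⟩, ?_, hfar⟩
  · exact (L.contDiff.comp ((bmp_smooth n).comp M.contDiff)).comp (contDiff_id.sub contDiff_const)
  · intro x hx
    refine hfar x ?_
    have h1 : ‖x‖ ≤ ‖x - v‖ + ‖v‖ := by
      have := norm_add_le (x - v) v
      rwa [sub_add_cancel] at this
    linarith
  · intro j hj x
    rw [iteratedFDeriv_comp_sub' j v]
    have hcomp : ContDiff ℝ ∞ (bmp n ∘ M) := (bmp_smooth n).comp M.contDiff
    have h1 : ‖iteratedFDeriv ℝ j (L ∘ (bmp n ∘ M)) (x - v)‖ ≤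
        ‖L‖ * ‖iteratedFDeriv ℝ j (bmp n ∘ M) (x - v)‖ := by
      apply L.norm_iteratedFDeriv_comp_left (hcomp.contDiffAt (x := x - v))
      exact_mod_cast le_top
    have h2 : ‖iteratedFDeriv ℝ j (bmp n ∘ M) (x - v)‖ ≤ C * (r⁻¹) ^ j := by
      rw [M.iteratedFDeriv_comp_right (bmp_smooth n) (x - v) (by exact_mod_cast le_top)]
      refine (ContinuousMultilinearMap.norm_compContinuousLinearMap_le _ _).trans ?_
      rw [Finset.prod_const, Finset.card_univ, Fintype.card_fin]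
      exact mul_le_mul (hC j hj _) (pow_le_pow_left₀ (norm_nonneg _) hnM j)
        (pow_nonneg (norm_nonneg _) _) hC0.le
    have h5 : r ^ k * (r⁻¹) ^ j ≤ 1 := by
      rw [inv_pow, ← div_eq_mul_inv, div_le_one (pow_pos hr j)]
      exact pow_le_pow_of_le_one hr.le hr1 hj
    calc ‖iteratedFDeriv ℝ j (L ∘ (bmp n ∘ M)) (x - v)‖
        ≤ ‖L‖ * ‖iteratedFDeriv ℝ j (bmp n ∘ M) (x - v)‖ := h1
      _ ≤ (ε * r ^ k) * (C * (r⁻¹) ^ j) :=
          mul_le_mul (hnL.trans hw) h2 (norm_nonneg _) (by positivity)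
      _ = C * ε * (r ^ k * (r⁻¹) ^ j) := by ring
      _ ≤ C * ε * 1 := mul_le_mul_of_nonneg_left h5 (by positivity)
      _ = C * ε := mul_one _
  · intro x hx
    have h1 : bmp n (r⁻¹ • (x - v)) = 1 := by
      apply bmp_near
      rw [hnx, div_le_iff₀ hr]
      linarith
    simp only [Function.comp_apply, hMx, h1, hLx, one_smul]

variable {n : ℕ} {N : Type u} [TopologicalSpace N] [ChartedSpace (V n) N] [IsManifold (𝓡 n) ∞ N]

/-- the derivative of a map which is `id + u` in a chart -/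
theorem DN_push' {Θ : N → N} {χ : OpenPartialHomeomorph N (V n)}
    (hχ : χ ∈ IsManifold.maximalAtlas (𝓡 n) ∞ N) {u : V n → V n}
    (hΘ : ∀ y ∈ χ.source, Θ y ∈ χ.source ∧ χ (Θ y) = χ y + u (χ y)) {y : N} (hy : y ∈ χ.source)
    {u' : V n →L[ℝ] V n} (hu : HasFDerivAt u u' (χ y)) :
    DN n Θ y =
      (Sc χ (χ (Θ y))).comp ((ContinuousLinearMap.id ℝ (V n) + u').comp (Tc χ y)) := by
  have hmd := chart_md hχ
  obtain ⟨a0, b0⟩ := hΘ y hy
  have h1 : HasMFDerivAt (𝓡 n) (𝓡 n) χ y (Tc χ y) := (hmd.mdifferentiableAt hy).hasMFDerivAt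
  have h2 : HasMFDerivAt (𝓡 n) (𝓡 n) (fun w : V n => w + u w) (χ y)
      (ContinuousLinearMap.id ℝ (V n) + u') :=
    ((hasFDerivAt_id (χ y)).add hu).hasMFDerivAt
  have h3 : HasMFDerivAt (𝓡 n) (𝓡 n) χ.symm (χ y + u (χ y)) (Sc χ (χ (Θ y))) := by
    rw [← b0]
    exact (hmd.mdifferentiableAt_symm (χ.map_source a0)).hasMFDerivAt
  have h4 := HasMFDerivAt.comp y (g := fun w : V n => w + u w) (f := χ) h2 h1
  have h5 := HasMFDerivAt.comp y (g := χ.symm) (f := (fun w : V n => w + u w) ∘ χ) h3 h4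
  have h6 : Θ =ᶠ[𝓝 y] χ.symm ∘ ((fun w : V n => w + u w) ∘ χ) := by
    filter_upwards [χ.open_source.mem_nhds hy] with z hz
    obtain ⟨a, b⟩ := hΘ z hz
    simp only [Function.comp_apply]
    rw [← b, χ.left_inv a]
  unfold DN
  rw [h6.mfderiv_eq]
  exact h5.mfderiv

end Pool.Agent.K4H47.IR
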