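import Pool.Agent.H74.G.R_pool_sql_team_seeded_c8625f6e.K4H47.IR.Fld

/-!
# Robustly hyperbolic linear maps
-/

set_option autoImplicit false
set_option linter.unusedSectionVars false

open scoped Manifold ContDiff Topology RealInnerProductSpace
open Filter Set Metric

universe u

namespace Pool.Agent.K4H47.IR

open Pool.Agent.H718R2.G Pool.Agent.K4H47.RH

variable {n : ℕ}

/-- `(1 + B) D` is hyperbolic for all linear `B` of norm at most `ε` -/
def RobHyp (D : V n →L[ℝ] V n) (ε : ℝ) : Prop :=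
  ∀ B : V n →L[ℝ] V n, ‖B‖ ≤ ε → IsHypMap ((ContinuousLinearMap.id ℝ (V n) + B).comp D)

theorem hyp_conj {T S A : V n →L[ℝ] V n} (hTS : T.comp S = ContinuousLinearMap.id ℝ (V n))
    (hST : S.comp T = ContinuousLinearMap.id ℝ (V n)) (h : IsHypMap A) :
    IsHypMap (T.comp (A.comp S)) := by
  set E : V n ≃ₗ[ℝ] V n := LinearEquiv.ofLinearMap (T : V n →ₗ[ℝ] V n) (S : V n →ₗ[ℝ] V n)
    (by
      ext1 x
      exact congrArg (fun A : V n →L[ℝ] V n => A x) hTS)
    (by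
      ext1 x
      exact congrArg (fun A : V n →L[ℝ] V n => A x) hST) with hE
  have h8 : ((T.comp (A.comp S) : V n →L[ℝ] V n) : V n →ₗ[ℝ] V n) =
      E.conj (A : V n →ₗ[ℝ] V n) := by
    ext1 x
    rfl
  intro μ hμ
  rw [h8, LinearEquiv.charpoly_conj] at hμ
  exact h μ hμ

theorem rob_eig {D : V n →L[ℝ] V n} {ε : ℝ} (hε : ε ≤ 1) (hD : Function.Injective D)
    (h : RobHyp D ε) {lam : ℂ}
    (hl : ((LinearMap.charpoly (D : V n →ₗ[ℝ] V n)).map (algebraMap ℝ ℂ)).IsRoot lam) :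
    ε / 2 ≤ |Real.log ‖lam‖| := by
  by_contra hcon
  push Not at hcon
  have hlam : lam ≠ 0 := root_ne_zero hD hl
  have hpos : 0 < ‖lam‖ := norm_pos_iff.2 hlam
  set s : ℝ := -Real.log ‖lam‖ with hs
  have hs1 : |s| ≤ ε / 2 := by rw [hs, abs_neg]; exact hcon.le
  have hs2 := Real.abs_exp_sub_one_le (x := s) (by linarith)
  have h1 := h ((Real.exp s - 1) • ContinuousLinearMap.id ℝ (V n)) (by
    refine ContinuousLinearMap.opNorm_le_bound _ ((abs_nonneg s).trans (by linarith [abs_nonneg s])) fun x => ?_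
    rw [smul_apply, norm_smul, Real.norm_eq_abs, ContinuousLinearMap.id_apply]
    exact mul_le_mul_of_nonneg_right (by linarith) (norm_nonneg _))
  have h2 : (ContinuousLinearMap.id ℝ (V n) + (Real.exp s - 1) •
      ContinuousLinearMap.id ℝ (V n)).comp D = Real.exp s • D := by
    ext1 x
    simp only [ContinuousLinearMap.comp_apply, add_apply, smul_apply,
      ContinuousLinearMap.id_apply]
    module
  rw [h2] at h1
  refine h1 _ (root_smul D (Real.exp s) hl) ?_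
  rw [norm_mul, Complex.norm_real, Real.norm_eq_abs, abs_of_pos (Real.exp_pos _), hs, Real.exp_neg,
    Real.exp_log hpos, inv_mul_cancel₀ hpos.ne']

theorem rob_angle {D : V n →L[ℝ] V n} {ε : ℝ} (hε0 : 0 < ε) (hε : ε ≤ 1)
    (h : RobHyp D ε) {v w : V n} {a b : ℝ} (hv : D v = a • v) (hw : D w = b • w) (ha : |a| < 1)
    (hb : 1 < |b|) (hv1 : ‖v‖ = 1) (hw1 : ‖w‖ = 1) : ε / 2 ≤ ‖v - w‖ := by
  by_contra hcon
  push Not at hcon
  obtain ⟨s, hs, hsb⟩ : ∃ s : ℝ, |s| = 1 ∧ s * b = |b| := by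
    rcases le_total 0 b with h0 | h0
    · exact ⟨1, by simp, by rw [one_mul, abs_of_nonneg h0]⟩
    · exact ⟨-1, by simp, by rw [abs_of_nonpos h0]; ring⟩
  have hss : s * s = 1 := by
    rw [← abs_mul_abs_self, hs, one_mul]
  set a' : ℝ := s * a with ha'
  set b' : ℝ := |b| with hb'
  have ha'1 : |a'| < 1 := by rw [ha', abs_mul, hs, one_mul]; exact ha
  obtain ⟨ha'l, ha'r⟩ := abs_lt.1 ha'1
  have h1a : 0 < 1 - a' := by linarith
  have h1b : 0 < b' - 1 := by linarith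
  set x : V n := (1 - a')⁻¹ • v + (b' - 1)⁻¹ • w with hx
  set y : V n := (a' / (1 - a')) • v + (b' / (b' - 1)) • w with hy
  have hxy : x - y = v - w := by
    rw [hx, hy]
    have e1 : (1 - a')⁻¹ - a' / (1 - a') = 1 := by field_simp
    have e2 : (b' - 1)⁻¹ - b' / (b' - 1) = -1 := by
      field_simp
      ring
    calc (1 - a')⁻¹ • v + (b' - 1)⁻¹ • w - ((a' / (1 - a')) • v + (b' / (b' - 1)) • w)
        = ((1 - a')⁻¹ - a' / (1 - a')) • v + ((b' - 1)⁻¹ - b' / (b' - 1)) • w := by module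
      _ = v - w := by rw [e1, e2]; module
  have hDx : D x = s • y := by
    rw [hx, hy, map_add, map_smul, map_smul, hv, hw, smul_add, smul_smul, smul_smul, smul_smul,
      smul_smul]
    have e1 : a = s * a' := by rw [ha', ← mul_assoc, hss, one_mul]
    have e2 : b = s * b' := by rw [← hsb, ← mul_assoc, hss, one_mul]
    congr 2
    · rw [div_eq_mul_inv, e1]
      ring
    · rw [div_eq_mul_inv, e2]
      ring
  have hinner : ⟪v, w⟫ = 1 - ‖v - w‖ ^ 2 / 2 := by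
    have h1 := norm_sub_sq_real v w
    rw [hv1, hw1] at h1
    linarith
  have hXY : ‖v - w‖ ≤ 1 / 2 := by linarith
  have hin0 : 0 ≤ ⟪v, w⟫ := by
    rw [hinner]
    nlinarith [norm_nonneg (v - w)]
  have hin1 : ⟪v, w⟫ ≤ 1 := by
    rw [hinner]
    nlinarith [norm_nonneg (v - w)]
  have hZn : 1 / 2 ≤ ‖y‖ := by
    have h1 : ⟪y, w⟫ ≤ ‖y‖ * ‖w‖ := real_inner_le_norm _ _
    rw [hw1, mul_one] at h1
    have h2 : ⟪y, w⟫ = (a' / (1 - a')) * ⟪v, w⟫ + b' / (b' - 1) := by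
      rw [hy, inner_add_left, real_inner_smul_left, real_inner_smul_left,
        real_inner_self_eq_norm_sq, hw1]
      ring
    have h3 : -(1 / 2) ≤ a' / (1 - a') := by
      rw [le_div_iff₀ h1a]
      linarith
    have h4 : 1 ≤ b' / (b' - 1) := by
      rw [le_div_iff₀ h1b]
      linarith
    have h5 : -(1 / 2) ≤ (a' / (1 - a')) * ⟪v, w⟫ := by nlinarith
    linarith
  have hZ0 : 0 < ‖y‖ := by linarith
  set B₀ : V n →L[ℝ] V n := ((‖y‖ ^ 2)⁻¹ • (innerSL ℝ y)).smulRight (v - w) with hB₀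
  have hB₀v : ∀ ξ, B₀ ξ = ((‖y‖ ^ 2)⁻¹ * ⟪y, ξ⟫) • (v - w) := fun ξ => rfl
  have hB₀y : B₀ y = v - w := by
    rw [hB₀v, real_inner_self_eq_norm_sq, inv_mul_cancel₀ (by positivity), one_smul]
  have hcost : ‖B₀‖ ≤ ε := by
    refine ContinuousLinearMap.opNorm_le_bound _ hε0.le fun ξ => ?_
    rw [hB₀v, norm_smul, Real.norm_eq_abs, abs_mul, abs_of_nonneg (by positivity)]
    have h1 : |⟪y, ξ⟫| ≤ ‖y‖ * ‖ξ‖ := abs_real_inner_le_norm _ _
    have h2 : (‖y‖ ^ 2)⁻¹ * |⟪y, ξ⟫| ≤ 2 * ‖ξ‖ := by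
      rw [inv_mul_le_iff₀ (by positivity)]
      refine h1.trans ?_
      have h3 : ‖y‖ ≤ ‖y‖ ^ 2 * 2 := by nlinarith
      calc ‖y‖ * ‖ξ‖ ≤ (‖y‖ ^ 2 * 2) * ‖ξ‖ :=
            mul_le_mul_of_nonneg_right h3 (norm_nonneg _)
        _ = ‖y‖ ^ 2 * (2 * ‖ξ‖) := by ring
    calc (‖y‖ ^ 2)⁻¹ * |⟪y, ξ⟫| * ‖v - w‖
        ≤ (2 * ‖ξ‖) * (ε / 2) :=
          mul_le_mul h2 hcon.le (norm_nonneg _) (by positivity)
      _ = ε * ‖ξ‖ := by ring
  have hx0 : x ≠ 0 := by
    intro h0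
    have h1 : s • y = 0 := by rw [← hDx, h0, map_zero]
    have h2 : y = 0 := by
      have h3 : s ≠ 0 := by
        intro h4
        rw [h4, abs_zero] at hs
        norm_num at hs
      exact (smul_eq_zero.1 h1).resolve_left h3
    rw [h2, norm_zero] at hZ0
    exact lt_irrefl _ hZ0
  refine not_hyp hx0 hs ?_ (h B₀ hcost)
  simp only [ContinuousLinearMap.comp_apply, add_apply, ContinuousLinearMap.id_apply, hDx,
    map_smul, hB₀y, ← smul_add]
  rw [← hxy]
  congr 1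
  abel

end Pool.Agent.K4H47.IR
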